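import Pool.Agent.R49.MC.Asy

/-!
Pair-sum collision statistics of the set of the multinomial coefficients with upper entry `n`:
none of the three known lower bound scales is the true one.

* `mu(n)`, `D(n)`, `C(n)` grow faster than every power of `n`, hence none of
  `C(n) = O(n^2 log n)`, `D(n) = O(n^(3/2) sqrt(log n))`, `mu(n) = O(sqrt(n log n))` holds.
* `M(n-5) <= D(n) <= C(n) <= M(n)^2` and `mu(n) <= M(n)`.
-/

set_option autoImplicit false

namespace Pool.Agent.Results.MP_675def_co.SuperpolynomialCollisions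

open Filter Asymptotics Pool.Agent.R49.MC

theorem result :
    ¬ ((fun n : ℕ => (C n : ℝ)) =O[atTop] fun n : ℕ => (n : ℝ) ^ 2 * Real.log n) ∧
    ¬ ((fun n : ℕ => (D n : ℝ)) =O[atTop] fun n : ℕ =>
        (n : ℝ) ^ ((3 : ℝ) / 2) * Real.sqrt (Real.log n)) ∧
    ¬ ((fun n : ℕ => (mu n : ℝ)) =O[atTop] fun n : ℕ => Real.sqrt ((n : ℝ) * Real.log n)) ∧
    (∀ A : ℕ, ∀ᶠ n : ℕ in atTop, n ^ A ≤ C n ∧ n ^ A ≤ D n ∧ n ^ A ≤ mu n) ∧
    (∀ n : ℕ, 5 ≤ n → M (n - 5) ≤ D n ∧ D n ≤ C n ∧ C n ≤ M n ^ 2) ∧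
    (∀ n : ℕ, mu n ≤ M n) := by
  refine ⟨not_isBigO (tendsto_div 3 C_superpoly g1) (g1.mono fun _ h => h.1),
    not_isBigO (tendsto_div 3 D_superpoly g2) (g2.mono fun _ h => h.1),
    not_isBigO (tendsto_div 1 mu_superpoly g3) (g3.mono fun _ h => h.1), ?_,
    fun n hn => ⟨M_le_D n hn, D_le_C n, C_le n⟩, mu_le_M⟩
  intro A
  filter_upwards [C_superpoly A, D_superpoly A, mu_superpoly A] with n h1 h2 h3
  exact ⟨h1, h2, h3⟩

end Pool.Agent.Results.MP_675def_co.SuperpolynomialCollisions
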